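import Pool.Agent.Y108.QG.Crit

/-!
# Affine automorphisms and elementary automorphisms of bounded degree do not generate
-/

set_option autoImplicit false

namespace Pool.Agent.Results.MP_119ce6_al.BoundedDegree

open MvPolynomial Finset
open Pool.Agent.Results.MP_119ce6_al.PositiveChar (FA pr ab pr_ι ab_comp ab_id ab_pr lin tr wd el
  el_ι el_wd pr_wd)
open Pool.Agent.Y108.QG

variable {K : Type*} [Field K] {n : ℕ}

/-- Automorphisms of `K⟨x_0, …, x_{n-1}⟩` which are affine modulo the commutator ideal. (`pr` is the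
natural map to the polynomial ring.) -/
def AffineMod (φ : FA K n ≃ₐ[K] FA K n) : Prop :=
  ∃ (M : Matrix (Fin n) (Fin n) K) (b : Fin n → K), IsUnit M.det ∧
    ∀ i, pr (φ (FreeAlgebra.ι K i)) = ∑ j, C (M i j) * X j + C (b i)

/-- The automorphism `φ` of `K⟨x_0, …, x_{n-1}⟩` is elementary modulo the commutator ideal:
`x_l ↦ x_l + w` and `x_i ↦ x_i` for `i ≠ l`, where `w` does not contain `x_l`. -/
def ElemMod (l : Fin n) (w : MvPolynomial (Fin n) K) (φ : FA K n ≃ₐ[K] FA K n) : Prop :=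
  (∀ s ∈ w.support, s l = 0) ∧
    pr (φ (FreeAlgebra.ι K l)) = X l + w ∧ ∀ i, i ≠ l → pr (φ (FreeAlgebra.ι K i)) = X i

/-- No monomial of `w` has all its exponents at the `x_i`, `i ≠ l`, congruent to `-1` modulo `q`. -/
def NoTopMod (q : ℕ) (l : Fin n) (w : MvPolynomial (Fin n) K) : Prop :=
  ∀ s : Fin n →₀ ℕ, (∀ i, i ≠ l → s i % q = q - 1) → coeff s w = 0

theorem ab_X (φ : FA K n →ₐ[K] FA K n) (i : Fin n) : ab φ (X i) = pr (φ (FreeAlgebra.ι K i)) := by
  simp [ab]

/-- the good automorphisms form a subgroup -/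
noncomputable def HH (K : Type*) [Field K] (n q : ℕ) : Subgroup (FA K n ≃ₐ[K] FA K n) where
  carrier := {φ | Good q (ab (φ : FA K n →ₐ[K] FA K n))}
  mul_mem' := by
    intro φ ψ h1 h2
    have : ab ((φ * ψ : FA K n ≃ₐ[K] FA K n) : FA K n →ₐ[K] FA K n) =
        (ab (φ : FA K n →ₐ[K] FA K n)).comp (ab (ψ : FA K n →ₐ[K] FA K n)) := by
      rw [← ab_comp]; rfl
    show Good q (ab ((φ * ψ : FA K n ≃ₐ[K] FA K n) : FA K n →ₐ[K] FA K n))
    rw [this]
    exact Good.comp h1 h2
  one_mem' := by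
    have : ab ((1 : FA K n ≃ₐ[K] FA K n) : FA K n →ₐ[K] FA K n) = AlgHom.id K _ := ab_id
    show Good q (ab ((1 : FA K n ≃ₐ[K] FA K n) : FA K n →ₐ[K] FA K n))
    rw [this]
    exact Good.one _
  inv_mem' := by
    intro φ h1
    obtain ⟨u, hu, h⟩ := h1
    refine ⟨u⁻¹, inv_ne_zero hu, fun j f => ?_⟩
    have e1 : (ab ((φ : FA K n ≃ₐ[K] FA K n) : FA K n →ₐ[K] FA K n)).comp
        (ab ((φ⁻¹ : FA K n ≃ₐ[K] FA K n) : FA K n →ₐ[K] FA K n)) = AlgHom.id K _ := by
      rw [← ab_comp, ← ab_id]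
      congr 1
      ext a
      exact φ.apply_symm_apply _
    have e2 : (ab ((φ⁻¹ : FA K n ≃ₐ[K] FA K n) : FA K n →ₐ[K] FA K n)).comp
        (ab ((φ : FA K n ≃ₐ[K] FA K n) : FA K n →ₐ[K] FA K n)) = AlgHom.id K _ := by
      rw [← ab_comp, ← ab_id]
      congr 1
      ext a
      exact φ.symm_apply_apply _
    set A := ab ((φ : FA K n ≃ₐ[K] FA K n) : FA K n →ₐ[K] FA K n)
    set B := ab ((φ⁻¹ : FA K n ≃ₐ[K] FA K n) : FA K n →ₐ[K] FA K n)
    have e1' : ∀ x, A (B x) = x := fun x => DFunLike.congr_fun e1 x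
    have e2' : ∀ x, B (A x) = x := fun x => DFunLike.congr_fun e2 x
    have h3 := h j (B f)
    rw [e1'] at h3
    rw [h3, map_mul, e2']
    have hc : B (C u) = C u := by
      have : (C u : MvPolynomial (Fin n) K) = algebraMap K _ u := rfl
      rw [this, AlgHom.commutes]
    rw [hc, ← mul_assoc, ← C_mul, inv_mul_cancel₀ hu, C_1, one_mul]

theorem mem_HH {q : ℕ} {φ : FA K n ≃ₐ[K] FA K n} :
    φ ∈ HH K n q ↔ Good q (ab (φ : FA K n →ₐ[K] FA K n)) := Iff.rfl

theorem affine_mem (p k : ℕ) [Fact p.Prime] [CharP K p] (hk : 1 ≤ k) (hn : 3 ≤ n)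
    (φ : FA K n ≃ₐ[K] FA K n) (h : AffineMod φ) : φ ∈ HH K n (p ^ k) := by
  have hne : Nonempty (Fin n) := ⟨⟨0, by omega⟩⟩
  obtain ⟨M, b, hM, h⟩ := h
  have : ab (φ : FA K n →ₐ[K] FA K n) = (lin M).comp (tr b) := by
    refine MvPolynomial.algHom_ext fun i => ?_
    rw [ab_X]
    show pr (φ (FreeAlgebra.ι K i)) = _
    rw [h]
    simp only [lin, tr, AlgHom.comp_apply, aeval_X, map_add]
    congr 1
    simp
  rw [mem_HH, this]
  exact (good_lin p k hk (by simpa using hn) M hM).comp (good_tr p k hk hne b)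

/-- the exact criterion -/
theorem elem_mem_iff (p k : ℕ) [Fact p.Prime] [CharP K p] (hk : 1 ≤ k) (hn : 3 ≤ n)
    (l : Fin n) (w : MvPolynomial (Fin n) K) (φ : FA K n ≃ₐ[K] FA K n) (h : ElemMod l w φ) :
    φ ∈ HH K n (p ^ k) ↔ NoTopMod (p ^ k) l w := by
  have hq := two_le_q p k hk
  obtain ⟨hw, h1, h2⟩ := h
  obtain ⟨j, hj⟩ : ∃ j : Fin n, j ≠ l := by
    have : Nontrivial (Fin n) := Fin.nontrivial_iff_two_le.2 (by omega)
    exact exists_ne l
  have hc := crit p k l w hw
  rw [mem_HH]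
  constructor
  · intro hg
    exact hc.1 (not_good_elem p k hk l w (dg_sh_of_support l w hw) ⟨j, hj⟩ _
      (by rw [ab_X]; exact h1) (fun i hi => by rw [ab_X]; exact h2 i hi) hg)
  · intro hg
    exact good_elem p k hk l w ⟨dg_sh_of_support l w hw, hc.2 hg⟩ (omc_ne hq hj) _
      (by rw [ab_X]; exact h1) (fun i hi => by rw [ab_X]; exact h2 i hi)

/-! ### The witnesses -/

/-- `x_j^N ∏_{i ≠ l} x_i^{q-1}` -/
noncomputable def wdN (q : ℕ) (l j : Fin n) (N : ℕ) : FA K n :=
  FreeAlgebra.ι K j ^ N * wd K n q l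

theorem el_wdN (q : ℕ) {l j : Fin n} (hj : j ≠ l) (N : ℕ) (w : FA K n) :
    el l w (wdN q l j N) = wdN q l j N := by
  unfold wdN
  rw [map_mul, map_pow, el_ι, if_neg hj, el_wd]

theorem el_comp' {l : Fin n} (w v : FA K n) (h : el l w v = v) (hwv : w + v = 0) :
    (el l w).comp (el l v) = AlgHom.id K _ := by
  refine FreeAlgebra.hom_ext (funext fun i => ?_)
  simp only [Function.comp_apply, AlgHom.comp_apply, el_ι, AlgHom.id_apply]
  split_ifs with h1
  · rw [map_add, el_ι, if_pos h1, h, add_assoc, hwv, add_zero]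
  · rw [el_ι, if_neg h1]

/-- the elementary automorphism -/
noncomputable def elN (q : ℕ) {l j : Fin n} (hj : j ≠ l) (N : ℕ) : FA K n ≃ₐ[K] FA K n :=
  AlgEquiv.ofAlgHom (el l (wdN q l j N)) (el l (-wdN q l j N))
    (el_comp' _ _ (by rw [map_neg, el_wdN q hj]) (by abel))
    (el_comp' _ _ (by rw [el_wdN q hj]) (by abel))

theorem elN_ι (q : ℕ) {l j : Fin n} (hj : j ≠ l) (N : ℕ) (i : Fin n) :
    elN (K := K) q hj N (FreeAlgebra.ι K i) =
      if i = l then FreeAlgebra.ι K i + wdN q l j N else FreeAlgebra.ι K i := el_ι _ _ _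

theorem elN_symm_ι (q : ℕ) {l j : Fin n} (hj : j ≠ l) (N : ℕ) (i : Fin n) :
    (elN (K := K) q hj N)⁻¹ (FreeAlgebra.ι K i) =
      if i = l then FreeAlgebra.ι K i + -wdN q l j N else FreeAlgebra.ι K i := el_ι _ _ _

theorem elN_symm_wdN (q : ℕ) {l j : Fin n} (hj : j ≠ l) (N N' : ℕ) :
    (elN (K := K) q hj N)⁻¹ (wdN q l j N') = wdN q l j N' := el_wdN q hj N' _

/-- the exponent `N e_j + (q-1) ∑_{i ≠ l} e_i` -/
noncomputable def exN (q : ℕ) (l j : Fin n) (N : ℕ) : Fin n →₀ ℕ :=
  Finsupp.equivFunOnFinite.symm fun i => (if i = j then N else 0) + if i = l then 0 else q - 1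

theorem exN_apply (q : ℕ) (l j : Fin n) (N : ℕ) (i : Fin n) :
    exN q l j N i = (if i = j then N else 0) + if i = l then 0 else q - 1 := rfl

theorem pr_wdN (q : ℕ) (l j : Fin n) (N : ℕ) :
    pr (wdN (K := K) q l j N) = monomial (exN q l j N) 1 := by
  unfold wdN
  rw [map_mul, map_pow, pr_ι, pr_wd, monomial_eq, Finsupp.prod_fintype _ _ (fun i => pow_zero _),
    C_1, one_mul]
  simp only [exN_apply, pow_add, Finset.prod_mul_distrib]
  congr 1
  · rw [Finset.prod_eq_single j]
    · rw [if_pos rfl]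
    · intro b _ hb
      rw [if_neg hb, pow_zero]
    · intro h
      exact absurd (Finset.mem_univ _) h
  · rw [← Finset.mul_prod_erase Finset.univ _ (Finset.mem_univ l), if_pos rfl, pow_zero, one_mul]
    apply Finset.prod_congr rfl
    intro i hi
    rw [if_neg (Finset.ne_of_mem_erase hi)]

theorem exN_l (q : ℕ) {l j : Fin n} (hj : j ≠ l) (N : ℕ) : exN q l j N l = 0 := by
  rw [exN_apply, if_neg (Ne.symm hj), if_pos rfl]

theorem exN_mod {q : ℕ} (hq : 2 ≤ q) (l j : Fin n) (m : ℕ) (i : Fin n) (hi : i ≠ l) :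
    exN q l j (q * m) i % q = q - 1 := by
  rw [exN_apply, if_neg hi]
  have h1 : (q - 1) % q = q - 1 := Nat.mod_eq_of_lt (by omega)
  split_ifs
  · rw [Nat.mul_add_mod, h1]
  · rw [zero_add, h1]

theorem elN_elemMod (q : ℕ) {l j : Fin n} (hj : j ≠ l) (N : ℕ) :
    ElemMod l (monomial (exN q l j N) 1) (elN (K := K) q hj N) := by
  refine ⟨fun s hs => ?_, ?_, fun i hi => ?_⟩
  · have h1 := support_monomial_subset hs
    rw [Finset.mem_singleton] at h1
    rw [h1]
    exact exN_l q hj N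
  · rw [elN_ι, if_pos rfl, map_add, pr_ι, pr_wdN]
  · rw [elN_ι, if_neg hi, pr_ι]

theorem quot_elemMod (q : ℕ) {l j : Fin n} (hj : j ≠ l) (N N' : ℕ) :
    ElemMod l (-monomial (exN q l j N) 1 + monomial (exN q l j N') 1)
      ((elN (K := K) q hj N)⁻¹ * elN q hj N') := by
  classical
  refine ⟨fun s hs => ?_, ?_, fun i hi => ?_⟩
  · rw [mem_support_iff, coeff_add, coeff_neg, coeff_monomial, coeff_monomial] at hs
    by_contra hne
    apply hs
    rw [if_neg, if_neg]
    · simp
    · rintro rfl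
      exact hne (exN_l q hj N')
    · rintro rfl
      exact hne (exN_l q hj N)
  · show pr ((elN (K := K) q hj N)⁻¹ (elN q hj N' (FreeAlgebra.ι K l))) = _
    rw [elN_ι, if_pos rfl, map_add, elN_symm_ι, if_pos rfl, elN_symm_wdN, map_add, map_add,
      pr_ι, map_neg, pr_wdN, pr_wdN, add_assoc]
  · show pr ((elN (K := K) q hj N)⁻¹ (elN q hj N' (FreeAlgebra.ι K i))) = _
    rw [elN_ι, if_neg hi, elN_symm_ι, if_neg hi, pr_ι]

theorem elN_not_mem (p k : ℕ) [Fact p.Prime] [CharP K p] (hk : 1 ≤ k) (hn : 3 ≤ n)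
    {l j : Fin n} (hj : j ≠ l) : elN (K := K) (p ^ k) hj 0 ∉ HH K n (p ^ k) := by
  intro hmem
  have hq := two_le_q p k hk
  have h1 := (elem_mem_iff p k hk hn l _ _ (elN_elemMod (p ^ k) hj 0)).1 hmem
  have h2 := h1 (exN (p ^ k) l j 0) (fun i hi => by
    have := exN_mod hq l j 0 i hi
    rwa [mul_zero] at this)
  rw [coeff_monomial, if_pos rfl] at h2
  exact one_ne_zero h2

theorem quot_not_mem (p k : ℕ) [Fact p.Prime] [CharP K p] (hk : 1 ≤ k) (hn : 3 ≤ n)
    {l j : Fin n} (hj : j ≠ l) {m m' : ℕ} (hm : m ≠ m') :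
    (elN (K := K) (p ^ k) hj (p ^ k * m))⁻¹ * elN (p ^ k) hj (p ^ k * m') ∉ HH K n (p ^ k) := by
  classical
  intro hmem
  have hq := two_le_q p k hk
  have h1 := (elem_mem_iff p k hk hn l _ _ (quot_elemMod (p ^ k) hj _ _)).1 hmem
  have h2 := h1 (exN (p ^ k) l j (p ^ k * m')) (fun i hi => exN_mod hq l j m' i hi)
  have h3 : exN (p ^ k) l j (p ^ k * m) ≠ exN (p ^ k) l j (p ^ k * m') := by
    intro h
    have h4 := congrArg (fun s : Fin n →₀ ℕ => s j) h
    simp only [exN_apply, if_true, if_neg hj] at h4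
    have h5 : p ^ k * m = p ^ k * m' := by omega
    exact hm (Nat.eq_of_mul_eq_mul_left (by omega) h5)
  rw [coeff_add, coeff_neg, coeff_monomial, coeff_monomial, if_neg h3, if_pos rfl] at h2
  simp at h2

theorem infinite_index (p k : ℕ) [Fact p.Prime] [CharP K p] (hk : 1 ≤ k) (hn : 3 ≤ n)
    {l j : Fin n} (hj : j ≠ l)
    (G T : Subgroup (FA K n ≃ₐ[K] FA K n)) (hG : G ≤ HH K n (p ^ k))
    (hT : ∀ m : ℕ, elN (p ^ k) hj (p ^ k * m) ∈ T) : G.relIndex T = 0 := by
  have hinf : Infinite (T ⧸ G.subgroupOf T) := by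
    apply Infinite.of_injective (fun m : ℕ =>
      ((⟨elN (K := K) (p ^ k) hj (p ^ k * m), hT m⟩ : T) : T ⧸ G.subgroupOf T))
    intro m m' h
    by_contra hne
    have h1 := QuotientGroup.eq.1 h
    rw [Subgroup.mem_subgroupOf] at h1
    exact quot_not_mem p k hk hn hj hne (hG h1)
  exact Nat.card_eq_zero_of_infinite

theorem noTop_of_degree {q : ℕ} (hn : 3 ≤ n) (l : Fin n) (w : MvPolynomial (Fin n) K)
    (h : w.totalDegree < (n - 1) * (q - 1)) : NoTopMod q l w := by
  intro s hs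
  apply coeff_eq_zero_of_totalDegree_lt
  refine lt_of_lt_of_le h ?_
  have h1 : ∑ i ∈ Finset.univ.erase l, s i = ∑ i ∈ Finset.univ.erase l, s i := rfl
  calc (n - 1) * (q - 1) = ∑ i ∈ (Finset.univ : Finset (Fin n)).erase l, (q - 1) := by
        rw [Finset.sum_const, Finset.card_erase_of_mem (Finset.mem_univ l), Finset.card_univ,
          Fintype.card_fin, smul_eq_mul]
    _ ≤ ∑ i ∈ (Finset.univ : Finset (Fin n)).erase l, s i := by
        apply Finset.sum_le_sum
        intro i hi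
        have h2 := hs i (Finset.ne_of_mem_erase hi)
        have h3 := Nat.mod_le (s i) q
        omega
    _ ≤ ∑ i : Fin n, s i := Finset.sum_le_sum_of_subset (Finset.erase_subset _ _)
    _ = ∑ i ∈ s.support, s i := by
        symm
        apply Finset.sum_subset (Finset.subset_univ _)
        intro i _ hi
        exact Finsupp.notMem_support_iff.1 hi

/-- the subgroups generated by the automorphisms which are affine modulo commutators and those
which are elementary modulo commutators without top monomials -/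
def HG (K : Type*) [Field K] (n q : ℕ) : Subgroup (FA K n ≃ₐ[K] FA K n) :=
  Subgroup.closure ({φ : FA K n ≃ₐ[K] FA K n | AffineMod φ} ∪
    {φ | ∃ l w, ElemMod l w φ ∧ NoTopMod q l w})

theorem HG_le (p k : ℕ) [Fact p.Prime] [CharP K p] (hk : 1 ≤ k) (hn : 3 ≤ n) :
    HG K n (p ^ k) ≤ HH K n (p ^ k) := by
  unfold HG
  rw [Subgroup.closure_le]
  rintro φ (h | ⟨l, w, h, hw⟩)
  · exact affine_mem p k hk hn φ h
  · exact (elem_mem_iff p k hk hn l w φ h).2 hw

theorem NoTopMod.mono {q c : ℕ} (hq : 0 < q) (hc : 0 < c) {l : Fin n}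
    {w : MvPolynomial (Fin n) K} (h : NoTopMod q l w) : NoTopMod (q * c) l w := by
  intro s hs
  apply h
  intro i hi
  have h1 := hs i hi
  have h2 : s i % (q * c) % q = s i % q := Nat.mod_mul_right_mod _ _ _
  rw [← h2, h1]
  obtain ⟨d, rfl⟩ : ∃ d, c = d + 1 := ⟨c - 1, by omega⟩
  have h3 : q * (d + 1) - 1 = q * d + (q - 1) := by
    rw [Nat.mul_succ]
    omega
  rw [h3, Nat.mul_add_mod, Nat.mod_eq_of_lt (by omega)]

theorem HG_mono (p : ℕ) [Fact p.Prime] {a b : ℕ} (hab : a ≤ b) :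
    HG K n (p ^ a) ≤ HG K n (p ^ b) := by
  have hp := (Fact.out : p.Prime).pos
  unfold HG
  apply Subgroup.closure_mono
  apply Set.union_subset_union_right
  rintro φ ⟨l, w, h, hw⟩
  refine ⟨l, w, h, ?_⟩
  have h1 : p ^ b = p ^ a * p ^ (b - a) := by rw [← pow_add]; congr 1; omega
  rw [h1]
  exact hw.mono (pow_pos hp _) (pow_pos hp _)

/-- **A filtration of the tame group in positive characteristic.** Let `K` be a field of
characteristic `p > 0` and `n ≥ 3`. There is an increasing sequence of subgroups `H 0 ≤ H 1 ≤ …` of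
the group of automorphisms of `K⟨x_1, …, x_n⟩` such that, with `q = p^(k+1)`,

(1) each `H k` has infinite index in `H (k+1)`, hence infinite index in the whole group;
(2) each `H k` contains all automorphisms which are affine modulo commutators, and it contains an
automorphism which is elementary `x_l ↦ x_l + w` modulo commutators if and only if no monomial of
`w` has all its exponents at the `x_i`, `i ≠ l`, congruent to `-1` modulo `q`; this is the case if
the degree of `w` is less than `(n-1)(q-1)`, and not the case for the elementary automorphism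
`x_l ↦ x_l + ∏_{j ≠ l} x_j^{q-1}` (product in the natural order);
(3) the union of the `H k` is the subgroup generated by all automorphisms which are affine or
elementary modulo commutators;
(4) for every finite subset `F` of this union the subgroup generated by `F` and all automorphisms
which are affine modulo commutators is contained in some `H k`;
(5) for every `d` the subgroup generated by all automorphisms which are affine modulo commutators
and all automorphisms which are, modulo commutators, elementary `x_l ↦ x_l + w` where every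
monomial of `w` has degree at most `d` or is free of some variable besides `x_l`, is contained in
some `H k`. -/
theorem result (K : Type*) [Field K] (p : ℕ) [Fact p.Prime] [CharP K p] (n : ℕ) (hn : 3 ≤ n) :
    ∃ H : ℕ → Subgroup (FA K n ≃ₐ[K] FA K n),
      Monotone H ∧
      (∀ k, (H k).relIndex (H (k + 1)) = 0 ∧ (H k).index = 0) ∧
      (∀ k φ, AffineMod φ → φ ∈ H k) ∧
      (∀ k l w φ, ElemMod l w φ → (φ ∈ H k ↔ NoTopMod (p ^ (k + 1)) l w)) ∧
      (∀ k l w φ, ElemMod l w φ → w.totalDegree < (n - 1) * (p ^ (k + 1) - 1) → φ ∈ H k) ∧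
      (∀ k, ∀ l : Fin n, ∃ e : FA K n ≃ₐ[K] FA K n,
        (∀ i : Fin n, e (FreeAlgebra.ι K i) = if i = l then
          FreeAlgebra.ι K i + (((List.finRange n).filter (· ≠ l)).map
            fun j => FreeAlgebra.ι K j ^ (p ^ (k + 1) - 1)).prod
          else FreeAlgebra.ι K i) ∧ e ∉ H k) ∧
      (∀ φ, φ ∈ Subgroup.closure ({φ : FA K n ≃ₐ[K] FA K n | AffineMod φ} ∪
        {φ | ∃ l w, ElemMod l w φ}) ↔ ∃ k, φ ∈ H k) ∧
      (∀ F : Set (FA K n ≃ₐ[K] FA K n), F.Finite → (∀ φ ∈ F, ∃ k, φ ∈ H k) →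
        ∃ k, Subgroup.closure ({φ : FA K n ≃ₐ[K] FA K n | AffineMod φ} ∪ F) ≤ H k) ∧
      (∀ d : ℕ, ∃ k, Subgroup.closure ({φ : FA K n ≃ₐ[K] FA K n | AffineMod φ} ∪
        {φ | ∃ l w, ElemMod l w φ ∧
          ∀ s ∈ w.support, s.degree ≤ d ∨ ∃ i, i ≠ l ∧ s i = 0}) ≤ H k) := by
  have hnt : Nontrivial (Fin n) := Fin.nontrivial_iff_two_le.2 (by omega)
  have hp := (Fact.out : p.Prime)
  have hgt : ∀ d : ℕ, d < p ^ (d + 1) - 1 := by
    intro d
    have h1 := hp.two_le
    have h2 : ∀ d : ℕ, d + 2 ≤ 2 ^ (d + 1) := by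
      intro d
      induction d with
      | zero => norm_num
      | succ d ih => rw [pow_succ]; omega
    have h3 : 2 ^ (d + 1) ≤ p ^ (d + 1) := Nat.pow_le_pow_left h1 _
    have := h2 d
    omega
  have hmono : Monotone fun k : ℕ => HG K n (p ^ (k + 1)) := fun a b hab =>
    HG_mono p (Nat.succ_le_succ hab)
  have hcrit : ∀ k l w φ, ElemMod l w φ →
      (φ ∈ HG K n (p ^ (k + 1)) ↔ NoTopMod (p ^ (k + 1)) l w) := by
    intro k l w φ h
    refine ⟨fun hm => (elem_mem_iff p (k + 1) (by omega) hn l w φ h).1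
      (HG_le p (k + 1) (by omega) hn hm), fun hw => Subgroup.subset_closure (Or.inr ⟨l, w, h, hw⟩)⟩
  have haff : ∀ k φ, AffineMod φ → φ ∈ HG K n (p ^ (k + 1)) := fun k φ h =>
    Subgroup.subset_closure (Or.inl h)
  refine ⟨fun k => HG K n (p ^ (k + 1)), hmono, fun k => ?_, haff, hcrit,
    fun k l w φ h hd => (hcrit k l w φ h).2 (noTop_of_degree hn l w hd), fun k l => ?_, fun φ => ?_,
    fun F hF hFk => ?_, fun d => ?_⟩
  · -- infinite index
    have hl : (⟨0, by omega⟩ : Fin n) ≠ ⟨1, by omega⟩ := by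
      simp
    have hG := HG_le (K := K) (n := n) p (k + 1) (by omega) hn
    refine ⟨infinite_index p (k + 1) (by omega) hn hl _ _ hG fun m => ?_, ?_⟩
    · refine (hcrit (k + 1) _ _ _ (elN_elemMod (p ^ (k + 1)) hl (p ^ (k + 1) * m))).2 ?_
      intro s hs
      classical
      rw [coeff_monomial, if_neg]
      intro h
      have h1 := hs ⟨2, by omega⟩ (by simp)
      rw [← h, exN_apply, if_neg (by simp), if_neg (by simp), zero_add] at h1
      have h2 : p ^ (k + 1) < p ^ (k + 1 + 1) := Nat.pow_lt_pow_right hp.one_lt (by omega)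
      have h3 : 0 < p ^ (k + 1) := pow_pos hp.pos _
      rw [Nat.mod_eq_of_lt (by omega)] at h1
      omega
    · have h1 := infinite_index p (k + 1) (by omega) hn hl _ ⊤ hG (fun m => Subgroup.mem_top _)
      rwa [Subgroup.relIndex_top_right] at h1
  · -- the witness
    obtain ⟨j, hj⟩ := exists_ne l
    refine ⟨elN (p ^ (k + 1)) hj 0, fun i => ?_, fun h =>
      elN_not_mem p (k + 1) (by omega) hn hj (HG_le p (k + 1) (by omega) hn h)⟩
    rw [elN_ι]
    split_ifs
    · rw [wdN, pow_zero, one_mul]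
      rfl
    · rfl
  · -- the union
    constructor
    · intro h
      induction h using Subgroup.closure_induction with
      | mem φ h =>
        rcases h with h | ⟨l, w, h⟩
        · exact ⟨0, haff 0 φ h⟩
        · refine ⟨w.totalDegree, (hcrit _ l w φ h).2 (noTop_of_degree hn l w ?_)⟩
          have h1 := hgt w.totalDegree
          have h2 : 1 * (p ^ (w.totalDegree + 1) - 1) ≤
              (n - 1) * (p ^ (w.totalDegree + 1) - 1) := Nat.mul_le_mul_right _ (by omega)
          omega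
      | one => exact ⟨0, Subgroup.one_mem _⟩
      | mul φ ψ _ _ h1 h2 =>
        obtain ⟨a, ha⟩ := h1
        obtain ⟨b, hb⟩ := h2
        exact ⟨max a b, Subgroup.mul_mem _ (hmono (le_max_left a b) ha)
          (hmono (le_max_right a b) hb)⟩
      | inv φ _ h1 =>
        obtain ⟨a, ha⟩ := h1
        exact ⟨a, Subgroup.inv_mem _ ha⟩
    · rintro ⟨k, hk⟩
      refine Subgroup.closure_mono ?_ hk
      apply Set.union_subset_union_right
      rintro φ ⟨l, w, h, _⟩
      exact ⟨l, w, h⟩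
  · -- finite sets
    have h1 : ∃ k, ∀ φ ∈ F, φ ∈ HG K n (p ^ (k + 1)) := by
      refine Set.Finite.induction_on_subset F hF ⟨0, fun φ h => absurd h (Set.notMem_empty φ)⟩ ?_
      rintro φ S hφ _ _ ⟨a, ha⟩
      obtain ⟨b, hb⟩ := hFk φ hφ
      refine ⟨max a b, fun ψ hψ => ?_⟩
      rcases hψ with rfl | hψ
      · exact hmono (le_max_right a b) hb
      · exact hmono (le_max_left a b) (ha ψ hψ)
    obtain ⟨k, hk⟩ := h1
    refine ⟨k, ?_⟩
    rw [Subgroup.closure_le]
    rintro φ (h | h)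
    · exact haff k φ h
    · exact hk φ h
  · -- bounded degree
    refine ⟨d, ?_⟩
    rw [Subgroup.closure_le]
    rintro φ (h | ⟨l, w, h, hw⟩)
    · exact haff d φ h
    · refine (hcrit d l w φ h).2 fun s hs => ?_
      have hkd := hgt d
      by_contra hne
      rcases hw s (mem_support_iff.2 hne) with h3 | ⟨i, hi, h3⟩
      · obtain ⟨j, hj⟩ := exists_ne l
        have h4 := hs j hj
        have h5 := Finsupp.le_degree j s
        have h6 := Nat.mod_le (s j) (p ^ (d + 1))
        omega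
      · have h4 := hs i hi
        rw [h3, Nat.zero_mod] at h4
        omega

end Pool.Agent.Results.MP_119ce6_al.BoundedDegree
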